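import Pool.Agent.H8.EDA.Targets

/-!
# Zariski dense orbits by forward heights, row EDG: the degree of the irreducible equation
-/

set_option autoImplicit false

open MvPolynomial
open Pool.Agent.H12.ZD (pmap)
open Pool.Agent.H18.HIT Pool.Agent.H18.HX Pool.Agent.H18.VZ
open Pool.Agent.H8.ZA (HFam Const NA)
open Pool.Agent.H8.TD (lc dg Cop)
open Pool.Agent.H8.TX (hn)
open Pool.Agent.H2.ED
open Pool.Agent.H18.TE (lg Gc)
open Pool.Agent.H18.TXB (avn)
open Pool.Agent.H18.EDB (dgm)
open Pool.Agent.H8.EDA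

namespace Pool.Agent.H54.EDA

namespace EDG

variable {k K : Type} [Field k] [Field K] [Algebra k K] {ρ : ℕ}

/-- the generic point of the cone -/
noncomputable def pt (μ : Fin ρ → K) : Fin (ρ + 1) → Polynomial K :=
  Fin.cons Polynomial.X fun i => Polynomial.X * Polynomial.C (μ i)

lemma pt_prod (μ : Fin ρ → K) (m : Fin (ρ + 1) →₀ ℕ) :
    ∏ i, pt μ i ^ m i =
      Polynomial.C (∏ i : Fin ρ, μ i ^ m i.succ) * Polynomial.X ^ (∑ i, m i) := by
  rw [Fin.prod_univ_succ, Fin.sum_univ_succ]
  simp only [pt, Fin.cons_zero, Fin.cons_succ, mul_pow, Finset.prod_mul_distrib,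
    Finset.prod_pow_eq_pow_sum, map_prod, map_pow, pow_add]
  ring

lemma pt_eq (μ : Fin ρ → K) (q : Po (ρ + 1) k) :
    aeval (pt μ) q = ∑ m ∈ q.support, Polynomial.C (algebraMap k K (coeff m q) *
      ∏ i : Fin ρ, μ i ^ m i.succ) * Polynomial.X ^ (∑ i, m i) := by
  rw [aeval_def, eval₂_eq']
  refine Finset.sum_congr rfl fun m _ => ?_
  rw [pt_prod, Polynomial.C_mul, ← mul_assoc]
  rfl

lemma pt_inj (μ : Fin ρ → K) (h : AlgebraicIndependent k μ) :
    Function.Injective (aeval (pt μ) : Po (ρ + 1) k →ₐ[k] Polynomial K) := by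
  classical
  rw [injective_iff_map_eq_zero]
  intro q hq
  ext m₀
  rw [coeff_zero]
  by_contra hm₀
  have hinj : ∀ m : Fin (ρ + 1) →₀ ℕ, ∑ i, m i = ∑ i, m₀ i →
      Finsupp.tail m = Finsupp.tail m₀ → m = m₀ := by
    intro m h1 h2
    have h3 : ∀ i : Fin ρ, m i.succ = m₀ i.succ := fun i => DFunLike.congr_fun h2 i
    rw [Fin.sum_univ_succ, Fin.sum_univ_succ] at h1
    simp only [h3] at h1
    ext i
    refine Fin.cases ?_ (fun i => h3 i) i
    exact Nat.add_right_cancel h1
  have h1 : (aeval (pt μ) q).coeff (∑ i, m₀ i) = 0 := by rw [hq, Polynomial.coeff_zero]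
  rw [pt_eq, Polynomial.finsetSum_coeff] at h1
  simp_rw [Polynomial.coeff_C_mul_X_pow] at h1
  set r : MvPolynomial (Fin ρ) k := ∑ m ∈ q.support with ∑ i, m₀ i = ∑ i, m i,
    monomial (Finsupp.tail m) (coeff m q) with hr
  have h2 : aeval μ r = 0 := by
    rw [hr, map_sum, ← h1, Finset.sum_filter]
    refine Finset.sum_congr rfl fun m _ => ?_
    split_ifs with h3
    · rw [aeval_monomial, Finsupp.prod_fintype _ _ (fun _ => pow_zero _)]
      rfl
    · rfl
  have h3 : r = 0 := by
    rw [algebraicIndependent_iff_injective_aeval, injective_iff_map_eq_zero] at h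
    exact h r h2
  have h4 : coeff (Finsupp.tail m₀) r = coeff m₀ q := by
    rw [hr, coeff_sum]
    simp_rw [coeff_monomial]
    rw [Finset.sum_eq_single m₀]
    · rw [if_pos rfl]
    · intro m hm hne
      rw [if_neg]
      intro h5
      exact hne (hinj m (Finset.mem_filter.1 hm).2.symm h5)
    · intro h5
      exfalso
      exact h5 (Finset.mem_filter.2 ⟨mem_support_iff.2 hm₀, rfl⟩)
  rw [h3, coeff_zero] at h4
  exact hm₀ h4.symm

lemma pt_hom (μ : Fin ρ → K) {Y : ℕ} (q : Po (ρ + 1) k) (hq : q.IsHomogeneous Y) :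
    aeval (pt μ) q = Polynomial.C (aeval (Fin.cons 1 μ : Fin (ρ + 1) → K) q) *
      Polynomial.X ^ Y := by
  rw [pt_eq, aeval_def, eval₂_eq', map_sum, Finset.sum_mul]
  refine Finset.sum_congr rfl fun m hm => ?_
  have h1 : ∑ i, m i = Y := by
    have h2 := hq (mem_support_iff.1 hm)
    rw [Finsupp.weight_apply, Finsupp.sum_fintype _ _ (fun _ => by simp)] at h2
    rw [← h2]
    simp
  rw [h1, Fin.prod_univ_succ]
  simp

end EDG

open EDG

theorem pf_EDG : T_EDG := by
  classical
  intro ρ E Y k K _ _ _ μ z Cf hμ hfin hE hhom h0 hirr hz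
  let M := FractionRing (Polynomial K)
  let L0 := FractionRing (Po (ρ + 1) k)
  let c : K →+* M := (algebraMap (Polynomial K) M).comp Polynomial.C
  let ψ : Po (ρ + 1) k →+* M :=
    (algebraMap (Polynomial K) M).comp (aeval (pt μ) : Po (ρ + 1) k →ₐ[k] Polynomial K).toRingHom
  have hψ : Function.Injective ψ :=
    (IsFractionRing.injective (Polynomial K) M).comp (pt_inj μ hμ)
  let g : L0 →+* M := IsFractionRing.lift hψ
  have hg : ∀ a, g (algebraMap (Po (ρ + 1) k) L0 a) = ψ a := fun a =>
    IsFractionRing.lift_algebraMap hψ a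
  set Φ : Polynomial (Po (ρ + 1) k) :=
    ∑ j : Fin (E + 1), Polynomial.C (Cf j) * Polynomial.X ^ (E - (j : ℕ)) with hΦ
  -- the degree
  have hΦdeg : Φ.natDegree = E := by
    apply le_antisymm
    · apply Polynomial.natDegree_sum_le_of_forall_le
      intro j _
      exact (Polynomial.natDegree_C_mul_X_pow_le _ _).trans (Nat.sub_le _ _)
    · apply Polynomial.le_natDegree_of_ne_zero
      have h1 : Φ.coeff E = Cf 0 := by
        rw [hΦ, Polynomial.finsetSum_coeff, Finset.sum_eq_single 0]
        · simp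
        · intro j _ hj
          rw [Polynomial.coeff_C_mul_X_pow, if_neg]
          have h2 : (j : ℕ) ≠ 0 := fun h => hj (Fin.ext h)
          omega
        · intro h
          exact absurd (Finset.mem_univ _) h
      rw [h1]
      exact h0
  -- Gauss
  let _ : NormalizedGCDMonoid (Po (ρ + 1) k) := Classical.choice inferInstance
  have hprim : Φ.IsPrimitive := hirr.isPrimitive (by rw [hΦdeg]; omega)
  have hirr0 : Irreducible (Φ.map (algebraMap (Po (ρ + 1) k) L0)) :=
    (hprim.irreducible_iff_irreducible_map_fraction_map (K := L0)).1 hirr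
  have hdeg0 : (Φ.map (algebraMap (Po (ρ + 1) k) L0)).natDegree = E := by
    rw [Polynomial.natDegree_map_eq_of_injective (IsFractionRing.injective _ _), hΦdeg]
  -- the root
  let _ : Algebra L0 M := g.toAlgebra
  have hroot : Polynomial.aeval (c z) (Φ.map (algebraMap (Po (ρ + 1) k) L0)) = 0 := by
    rw [Polynomial.aeval_def, Polynomial.eval₂_map]
    have h1 : (algebraMap L0 M).comp (algebraMap (Po (ρ + 1) k) L0) = ψ := RingHom.ext hg
    rw [h1, hΦ, Polynomial.eval₂_finsetSum]
    have h2 : ∀ j : Fin (E + 1), Polynomial.eval₂ ψ (c z)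
        (Polynomial.C (Cf j) * Polynomial.X ^ (E - (j : ℕ))) =
        algebraMap (Polynomial K) M (Polynomial.C
          (aeval (Fin.cons 1 μ : Fin (ρ + 1) → K) (Cf j) * z ^ (E - (j : ℕ))) *
            Polynomial.X ^ Y) := by
      intro j
      rw [Polynomial.eval₂_mul, Polynomial.eval₂_C, Polynomial.eval₂_X_pow]
      have h3 : ψ (Cf j) = algebraMap (Polynomial K) M
          (Polynomial.C (aeval (Fin.cons 1 μ : Fin (ρ + 1) → K) (Cf j)) *
            Polynomial.X ^ Y) := by
        rw [← pt_hom μ (Cf j) (hhom j)]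
        rfl
      have h4 : c z ^ (E - (j : ℕ)) = algebraMap (Polynomial K) M
          (Polynomial.C (z ^ (E - (j : ℕ)))) := by
        rw [← map_pow]
        rfl
      rw [h3, h4, ← map_mul]
      congr 1
      rw [Polynomial.C_mul]
      ring
    rw [Finset.sum_congr rfl fun j _ => h2 j, ← map_sum, ← Finset.sum_mul, ← map_sum, hz,
      map_zero, zero_mul, map_zero]
  -- the minimal polynomial over the field of `μ`
  set L := IntermediateField.adjoin k (Set.range μ) with hL
  have hP := minpoly.natDegree_le (A := L) z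
  have hint : IsIntegral L z := Algebra.IsIntegral.isIntegral z
  have hX : algebraMap (Polynomial K) M Polynomial.X ≠ 0 := by
    rw [Ne, IsFractionRing.to_map_eq_zero_iff]
    exact Polynomial.X_ne_zero
  have hk : ∀ a : k, algebraMap k K a ∈ (g.fieldRange.comap c) := by
    intro a
    rw [Subfield.mem_comap]
    refine ⟨algebraMap (Po (ρ + 1) k) L0 (C a), ?_⟩
    rw [hg]
    show algebraMap (Polynomial K) M (aeval (pt μ) (C a)) = _
    rw [← MvPolynomial.algebraMap_eq, AlgHom.commutes]
    rfl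
  have hLT : L ≤ (g.fieldRange.comap c).toIntermediateField hk := by
    rw [hL, IntermediateField.adjoin_le_iff]
    rintro _ ⟨i, rfl⟩
    show c (μ i) ∈ g.fieldRange
    refine ⟨algebraMap (Po (ρ + 1) k) L0 (X i.succ) / algebraMap (Po (ρ + 1) k) L0 (X 0), ?_⟩
    rw [map_div₀, hg, hg]
    show algebraMap (Polynomial K) M (aeval (pt μ) (X i.succ)) /
      algebraMap (Polynomial K) M (aeval (pt μ) (X 0)) = _
    rw [aeval_X, aeval_X]
    simp only [pt, Fin.cons_zero, Fin.cons_succ, map_mul]
    rw [mul_div_cancel_left₀ _ hX]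
    rfl
  have hlift : (minpoly L z).map (c.comp (algebraMap L K)) ∈ Polynomial.lifts g := by
    rw [Polynomial.lifts_iff_coeff_lifts]
    intro n
    rw [Polynomial.coeff_map]
    exact hLT ((minpoly L z).coeff n).2
  have hmon : ((minpoly L z).map (c.comp (algebraMap L K))).Monic :=
    (minpoly.monic hint).map _
  obtain ⟨P0, hP0, hP0d, hP0m⟩ := Polynomial.lifts_and_natDegree_eq_and_monic hlift hmon
  have hroot0 : Polynomial.aeval (c z) P0 = 0 := by
    have h1 : Polynomial.aeval (c z) P0 = (P0.map g).eval (c z) := by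
      rw [Polynomial.aeval_def, Polynomial.eval_map]
      rfl
    rw [h1, hP0, Polynomial.eval_map, ← Polynomial.hom_eval₂, ← Polynomial.aeval_def,
      minpoly.aeval, map_zero]
  have hd1 : minpoly L0 (c z) ∣ P0 := minpoly.dvd _ _ hroot0
  have hd2 := minpoly.eq_of_irreducible hirr0 hroot
  have hle := Polynomial.natDegree_le_of_dvd hd1 hP0m.ne_zero
  rw [← hd2, Polynomial.natDegree_mul_C (inv_ne_zero
    (Polynomial.leadingCoeff_ne_zero.2 hirr0.ne_zero)), hdeg0, hP0d,
    (minpoly.monic hint).natDegree_map] at hle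
  exact hle.trans hP

end Pool.Agent.H54.EDA
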