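import Pool.Agent.H8.EDA.Targets
import Pool.Agent.H81.TX.HRX

/-!
# Zariski dense orbits by forward heights, row HVR: the height of a root
-/

set_option autoImplicit false

open MvPolynomial
open Pool.Agent.H12.ZD (pmap)
open Pool.Agent.H18.HIT Pool.Agent.H18.HX Pool.Agent.H18.VZ
open Pool.Agent.H8.ZA (HFam Const NA)
open Pool.Agent.H8.TD (lc dg Cop)
open Pool.Agent.H8.TX
open Pool.Agent.H2.ED
open Pool.Agent.H18.TE (lg Gc)
open Pool.Agent.H18.TXB (avn)
open Pool.Agent.H18.EDB (dgm)
open Pool.Agent.H8.EDA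

namespace Pool.Agent.H54.EDA

namespace HVR

open Pool.Agent.H42.TD.HRL
open Pool.Agent.H81.TX.HRX (supp_const supp_abv hn_one)

section size

variable {k : Type} [CommRing k] {n : ℕ}

lemma one_le_szn (v : AbsoluteValue k ℝ) (x : Fin n → k) : 1 ≤ szn v x :=
  Finset.le_fold_max 1 |>.2 (Or.inl le_rfl)

lemma szn_pos (v : AbsoluteValue k ℝ) (x : Fin n → k) : 0 < szn v x :=
  lt_of_lt_of_le one_pos (one_le_szn v x)

lemma le_szn (v : AbsoluteValue k ℝ) (x : Fin n → k) (i : Fin n) : v (x i) ≤ szn v x :=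
  Finset.le_fold_max _ |>.2 (Or.inr ⟨i, Finset.mem_univ i, le_rfl⟩)

lemma szn_le {v : AbsoluteValue k ℝ} {x : Fin n → k} {B : ℝ} (h1 : 1 ≤ B)
    (h : ∀ i, v (x i) ≤ B) : szn v x ≤ B :=
  Finset.fold_max_le _ |>.2 ⟨h1, fun i _ => h i⟩

end size

variable {K : IntermediateField ℚ Qb}

lemma szn_finite {n : ℕ} (F : HFam K) (x : Fin n → Qb) : {i | szn (F.abv i) x ≠ 1}.Finite := by
  have h1 : (⋃ j : Fin n, {i | x j ≠ 0 ∧ F.abv i (x j) ≠ 1}).Finite := by
    apply Set.finite_iUnion
    intro j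
    by_cases hj : x j = 0
    · have h2 : {i | x j ≠ 0 ∧ F.abv i (x j) ≠ 1} = ∅ := by
        ext i
        simp [hj]
      rw [h2]
      exact Set.finite_empty
    · exact (F.finite (x j) hj).subset fun i hi => hi.2
  refine h1.subset fun i hi => ?_
  by_contra hcon
  apply hi
  apply le_antisymm _ (one_le_szn _ _)
  apply szn_le le_rfl
  intro j
  by_cases hj : x j = 0
  · rw [hj, map_zero]
    exact zero_le_one
  · by_contra h3
    apply hcon
    rw [Set.mem_iUnion]
    exact ⟨j, hj, fun h4 => h3 h4.le⟩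

lemma log_szn_finite {n : ℕ} (F : HFam K) (x : Fin n → Qb) :
    (Function.support fun i => Real.log (szn (F.abv i) x)).Finite := by
  refine (szn_finite F x).subset fun i hi => ?_
  intro h
  apply hi
  simp only
  rw [h, Real.log_one]

lemma two (F : HFam K) (i : F.ι) (x y : Qb) (a b M : ℝ) (ha : 1 ≤ a) (hb : 1 ≤ b)
    (hM : 0 ≤ M) (hx : F.abv i x ≤ a * M) (hy : F.abv i y ≤ b * M) :
    F.abv i (x + y) ≤ ac F 2 i * (a * b) * M := by
  have h1 : a * M ≤ (a * b) * M := mul_le_mul_of_nonneg_right (by nlinarith) hM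
  have h2 : b * M ≤ (a * b) * M := mul_le_mul_of_nonneg_right (by nlinarith) hM
  have h0 : 0 ≤ a * b * M := by positivity
  rcases ac_or F 2 2 i (by norm_num) with ⟨h3, h4⟩ | h3
  · calc F.abv i (x + y) ≤ max (F.abv i x) (F.abv i y) := h3 _ _
      _ ≤ a * b * M := max_le (hx.trans h1) (hy.trans h2)
      _ = 1 * (a * b * M) := by ring
      _ ≤ ac F 2 i * (a * b * M) := mul_le_mul_of_nonneg_right h4 h0
      _ = _ := by ring
  · push_cast at h3
    calc F.abv i (x + y) ≤ F.abv i x + F.abv i y := (F.abv i).add_le _ _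
      _ ≤ 2 * (a * b * M) := by linarith [hx.trans h1, hy.trans h2]
      _ ≤ ac F 2 i * (a * b * M) := mul_le_mul_of_nonneg_right h3 h0
      _ = _ := by ring

/-- the value of a monomial -/
lemma mon (F : HFam K) {n : ℕ} (i : F.ι) (w : Fin n → Qb) (m : Fin n →₀ ℕ) :
    F.abv i (∏ j, w j ^ m j) ≤ szn (F.abv i) w ^ (∑ j, m j) := by
  rw [map_prod, ← Finset.prod_pow_eq_pow_sum]
  refine Finset.prod_le_prod (fun j _ => (F.abv i).nonneg _) fun j _ => ?_
  rw [map_pow]
  exact pow_le_pow_left₀ ((F.abv i).nonneg _) (le_szn _ _ j) _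

lemma poly (F : HFam K) {n Y : ℕ} (s : Finset (Fin n →₀ ℕ)) (a : (Fin n →₀ ℕ) → Qb)
    (hs : ∀ m ∈ s, ∑ j, m j ≤ Y) : ∃ c : F.ι → ℝ, Const F c ∧ ∀ (i : F.ι) (w : Fin n → Qb),
      F.abv i (∑ m ∈ s, a m * ∏ j, w j ^ m j) ≤ c i * szn (F.abv i) w ^ Y := by
  classical
  induction s using Finset.induction_on with
  | empty =>
    refine ⟨fun _ => 1, Const.one F, fun i w => ?_⟩
    rw [Finset.sum_empty, map_zero]
    have := szn_pos (F.abv i) w
    positivity
  | insert m s hm ih =>
    obtain ⟨c, hc, h⟩ := ih fun m' h' => hs m' (Finset.mem_insert_of_mem h')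
    refine ⟨fun i => ac F 2 i * (mo F (a m) i * c i),
      (ac_const F 2 (by norm_num)).mul ((mo_const F (a m)).mul hc), fun i w => ?_⟩
    rw [Finset.sum_insert hm]
    have hp := szn_pos (F.abv i) w
    refine two F i _ _ _ _ _ ((mo_const F (a m)).one_le i) (hc.one_le i) (by positivity) ?_
      (h i w)
    rw [map_mul]
    refine mul_le_mul (le_max_right _ _) ?_ ((F.abv i).nonneg _)
      (le_trans zero_le_one (le_max_left _ _))
    exact (mon F i w m).trans (pow_le_pow_right₀ (one_le_szn _ _)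
      (hs m (Finset.mem_insert_self _ _)))

lemma homo (F : HFam K) {n Y : ℕ} (p : MvPolynomial (Fin n) Qb) (hp : p.IsHomogeneous Y) :
    ∃ c : F.ι → ℝ, Const F c ∧ ∀ (i : F.ι) (w : Fin n → Qb),
      F.abv i (eval w p) ≤ c i * szn (F.abv i) w ^ Y := by
  obtain ⟨c, hc, h⟩ := poly F (Y := Y) p.support (fun m => coeff m p) fun m hm => by
    have h1 := hp (mem_support_iff.1 hm)
    rw [Finsupp.weight_apply] at h1
    rw [← h1, Finsupp.sum_fintype _ _ (fun _ => by simp)]
    simp
  refine ⟨c, hc, fun i w => ?_⟩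
  rw [eval_eq']
  exact h i w

lemma memK {n : ℕ} (p : MvPolynomial (Fin n) Qb) (hp : ∀ a ∈ p.coeffs, a ∈ K)
    (w : Fin n → Qb) (hw : ∀ i, w i ∈ K) : eval w p ∈ K := by
  rw [eval_eq']
  refine sum_mem fun m hm => mul_mem (hp _ ?_) (prod_mem fun j _ => pow_mem (hw j) _)
  exact coeff_mem_coeffs _ (mem_support_iff.1 hm)

end HVR

open HVR
open Pool.Agent.H42.TD.HRL (ac ac_const ac_or mo mo_const sum_le prod_const le_prod)
open Pool.Agent.H81.TX.HRX (supp_const supp_abv hn_one)

theorem pf_HVR : T_HVR := by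
  classical
  intro ρ E Y Cf K' F hE hhom hK
  let G : ℕ → MvPolynomial (Fin (ρ + 1)) Qb := fun u => if h : u < E + 1 then Cf ⟨u, h⟩ else 0
  have hG : ∀ u, (G u).IsHomogeneous Y := by
    intro u
    by_cases h : u < E + 1
    · simp only [G, dif_pos h]
      exact hhom _
    · simp only [G, dif_neg h]
      exact isHomogeneous_zero _ _ _
  choose b hb hbv using fun u => homo F (G u) (hG u)
  let B : F.ι → ℝ := fun i => ∏ u ∈ Finset.range (E + 1), b u i
  have hB : Const F B := prod_const F _ b fun u _ => hb u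
  have hBc : ∀ i u, u < E + 1 → b u i ≤ B i := fun i u hu =>
    le_prod F _ b (fun u _ => hb u) u (Finset.mem_range.2 hu) i
  let κ : F.ι → ℝ := ac F (E : ℝ)
  have hκ : Const F κ := ac_const F _ (by exact_mod_cast hE)
  let C : F.ι → ℝ := fun i => κ i * B i
  have hC : Const F C := hκ.mul hB
  refine ⟨∑ᶠ i, Real.log (C i), fun w z hw h0 hz => ?_⟩
  have hG0 : G 0 = Cf 0 := by
    simp only [G, dif_pos (Nat.succ_pos E)]
    rfl
  have hz' : ∑ u ∈ Finset.range (E + 1), eval w (G u) * z ^ (E - u) = 0 := by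
    rw [← hz, Finset.sum_range]
    refine Finset.sum_congr rfl fun j _ => ?_
    simp only [G, dif_pos j.2]
  rw [Finset.sum_range_succ'] at hz'
  have hrel : eval w (Cf 0) * z ^ E =
      - ∑ u ∈ Finset.range E, eval w (G (u + 1)) * z ^ (E - (u + 1)) := by
    rw [hG0, Nat.sub_zero] at hz'
    linear_combination hz'
  have key : ∀ i, mo F z i * F.abv i (eval w (Cf 0)) ≤ C i * szn (F.abv i) w ^ Y := by
    intro i
    have hcp : 0 < F.abv i (eval w (Cf 0)) := (F.abv i).pos h0
    have hst : 0 < szn (F.abv i) w := szn_pos _ _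
    have hQ : 0 ≤ B i * szn (F.abv i) w ^ Y := mul_nonneg (hB.pos i).le (pow_nonneg hst.le _)
    have hcoef : ∀ u, u < E + 1 → F.abv i (eval w (G u)) ≤ B i * szn (F.abv i) w ^ Y := by
      intro u hu
      exact (hbv u i w).trans (mul_le_mul_of_nonneg_right (hBc i u hu) (pow_nonneg hst.le _))
    have hQ2 : C i * szn (F.abv i) w ^ Y = κ i * (B i * szn (F.abv i) w ^ Y) := by
      show κ i * B i * _ = _
      ring
    rw [hQ2]
    by_cases hle : F.abv i z ≤ 1
    · have h1 : mo F z i ≤ 1 := max_le le_rfl hle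
      have h2 := hcoef 0 (Nat.succ_pos E)
      rw [hG0] at h2
      calc mo F z i * F.abv i (eval w (Cf 0)) ≤ 1 * F.abv i (eval w (Cf 0)) :=
            mul_le_mul_of_nonneg_right h1 hcp.le
        _ = F.abv i (eval w (Cf 0)) := one_mul _
        _ ≤ B i * szn (F.abv i) w ^ Y := h2
        _ ≤ κ i * (B i * szn (F.abv i) w ^ Y) := le_mul_of_one_le_left hQ (hκ.one_le i)
    · have hgt : 1 < F.abv i z := lt_of_not_ge hle
      have h1 : mo F z i ≤ F.abv i z := max_le hgt.le le_rfl
      have h2 : F.abv i (eval w (Cf 0)) * F.abv i z ^ E ≤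
          κ i * (B i * szn (F.abv i) w ^ Y * F.abv i z ^ (E - 1)) := by
        rw [← map_pow, ← map_mul, hrel, (F.abv i).map_neg]
        refine sum_le _ _ _ _ _ (mul_nonneg hQ (pow_nonneg (by linarith) _))
          (ac_or F _ _ i le_rfl) fun u hu => ?_
        rw [map_mul, map_pow]
        exact mul_le_mul (hcoef (u + 1) (by omega)) (pow_le_pow_right₀ hgt.le (by omega))
          (pow_nonneg (by linarith) _) hQ
      have h3 : F.abv i z ^ E = F.abv i z * F.abv i z ^ (E - 1) := by
        rw [← pow_succ']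
        congr 1
        omega
      have hpp : 0 < F.abv i z ^ (E - 1) := pow_pos (by linarith) _
      have h4 : F.abv i z * F.abv i (eval w (Cf 0)) ≤
          κ i * (B i * szn (F.abv i) w ^ Y) := by
        rw [h3] at h2
        have h5 : (F.abv i z * F.abv i (eval w (Cf 0))) * F.abv i z ^ (E - 1) ≤
            (κ i * (B i * szn (F.abv i) w ^ Y)) * F.abv i z ^ (E - 1) := by
          linarith
        exact le_of_mul_le_mul_right h5 hpp
      exact (mul_le_mul_of_nonneg_right h1 hcp.le).trans h4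
  have hlog : ∀ i, Real.log (mo F z i) + Real.log (F.abv i (eval w (Cf 0))) ≤
      Real.log (C i) + Y * Real.log (szn (F.abv i) w) := by
    intro i
    have hcp : 0 < F.abv i (eval w (Cf 0)) := (F.abv i).pos h0
    have hp1 := (mo_const F z).pos i
    have hp2 := szn_pos (F.abv i) w
    have h1 : Real.log (mo F z i * F.abv i (eval w (Cf 0))) ≤
        Real.log (C i * szn (F.abv i) w ^ Y) := Real.log_le_log (mul_pos hp1 hcp) (key i)
    rw [Real.log_mul hp1.ne' hcp.ne', Real.log_mul (hC.pos i).ne'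
      (pow_pos hp2 _).ne', Real.log_pow] at h1
    exact h1
  have s1 := supp_const F _ (mo_const F z)
  have s2 := log_szn_finite F w
  have s3 := supp_const F _ hC
  have s4 := supp_abv F (eval w (Cf 0)) h0
  have s5 : (Function.support fun i => (Y : ℝ) * Real.log (szn (F.abv i) w)).Finite :=
    s2.subset fun i hi h => hi (by
      show (Y : ℝ) * Real.log (szn (F.abv i) w) = 0
      rw [show Real.log (szn (F.abv i) w) = 0 from h, mul_zero])
  have hprod : ∑ᶠ i, Real.log (F.abv i (eval w (Cf 0))) = 0 :=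
    F.prod _ (memK (Cf 0) (hK 0) w hw) h0
  have hfin : hn F ![z] + ∑ᶠ i, Real.log (F.abv i (eval w (Cf 0))) ≤
      Y * hn F w + ∑ᶠ i, Real.log (C i) := by
    rw [hn_one]
    unfold hn
    rw [mul_finsum, ← finsum_add_distrib s1 s4, ← finsum_add_distrib s5 s3]
    refine finsum_le_finsum' ?_ ?_ fun i => ?_
    · exact (s1.union s4).subset (Function.support_add _ _)
    · exact (s5.union s3).subset (Function.support_add _ _)
    · have := hlog i
      show Real.log (mo F z i) + Real.log (F.abv i (eval w (Cf 0))) ≤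
        Y * Real.log (szn (F.abv i) w) + Real.log (C i)
      linarith
  rw [hprod, add_zero] at hfin
  exact hfin

end Pool.Agent.H54.EDA
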